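import Pool.Agent.Work.MP_223b32_es.Interface

/-! # Block CHS3 (helper4) -/

namespace Pool.Agent.Work.ES

open Finset Polynomial Module Pool.Agent.Work.MP_223b32_ag Pool.Agent.Work.TC

namespace CHS3

section cyc
variable {K : Type} [Field K] [Fintype K]

theorem card_sub (h3 : Fintype.card K % 3 = 1) :
    Fintype.card K - 1 = 3 * ((Fintype.card K - 1) / 3) := by
  omega

theorem N_pos (h3 : Fintype.card K % 3 = 1) : 0 < (Fintype.card K - 1) / 3 := by
  have := Fintype.one_lt_card (α := K)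
  omega

theorem exists_gen : ∃ g : Kˣ, orderOf g = Fintype.card K - 1 ∧ ∀ x : Kˣ, ∃ j : ℕ, g ^ j = x := by
  classical
  obtain ⟨g, hg⟩ := IsCyclic.exists_generator (α := Kˣ)
  refine ⟨g, ?_, fun x => ?_⟩
  · rw [orderOf_eq_card_of_forall_mem_zpowers hg, Nat.card_eq_fintype_card, Fintype.card_units]
  · have := hg x
    rw [mem_zpowers_iff_mem_range_orderOf] at this
    obtain ⟨j, _, hj⟩ := Finset.mem_image.1 this
    exact ⟨j, hj⟩

/-- cubes -/
theorem exists_cube (h3 : Fintype.card K % 3 = 1) {x : K} (hx : x ≠ 0)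
    (h : x ^ ((Fintype.card K - 1) / 3) = 1) : ∃ y : K, y ≠ 0 ∧ y ^ 3 = x := by
  obtain ⟨g, hg, hgen⟩ := exists_gen (K := K)
  obtain ⟨j, hj⟩ := hgen (Units.mk0 x hx)
  have h1 : g ^ (j * ((Fintype.card K - 1) / 3)) = 1 := by
    rw [pow_mul, hj]
    ext
    rw [Units.val_pow_eq_pow_val, Units.val_mk0, h, Units.val_one]
  have h2 := orderOf_dvd_of_pow_eq_one h1
  rw [hg] at h2
  have hN := N_pos (K := K) h3
  rw [card_sub h3, Nat.mul_div_cancel_left _ (by norm_num : 0 < 3)] at h2
  obtain ⟨i, rfl⟩ := Nat.dvd_of_mul_dvd_mul_right hN h2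
  refine ⟨((g ^ i : Kˣ) : K), Units.ne_zero _, ?_⟩
  have h4 : ((g ^ i) ^ 3 : Kˣ) = Units.mk0 x hx := by
    rw [← hj, ← pow_mul, mul_comm]
  have h5 := congrArg Units.val h4
  rw [Units.val_pow_eq_pow_val, Units.val_mk0] at h5
  exact h5

/-- cube roots of one are values -/
theorem exists_val (h3 : Fintype.card K % 3 = 1) {x : K} (h : x ^ 3 = 1) :
    ∃ y : K, y ≠ 0 ∧ y ^ ((Fintype.card K - 1) / 3) = x := by
  have hx : x ≠ 0 := by
    rintro rfl
    norm_num at h
  obtain ⟨g, hg, hgen⟩ := exists_gen (K := K)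
  obtain ⟨j, hj⟩ := hgen (Units.mk0 x hx)
  have h1 : g ^ (3 * j) = 1 := by
    rw [mul_comm, pow_mul, hj]
    ext
    rw [Units.val_pow_eq_pow_val, Units.val_mk0, h, Units.val_one]
  have h2 := orderOf_dvd_of_pow_eq_one h1
  rw [hg, card_sub h3] at h2
  obtain ⟨i, hi⟩ := Nat.dvd_of_mul_dvd_mul_left (by norm_num : 0 < 3) h2
  refine ⟨((g ^ i : Kˣ) : K), Units.ne_zero _, ?_⟩
  have h4 : ((g ^ i) ^ ((Fintype.card K - 1) / 3) : Kˣ) = Units.mk0 x hx := by
    rw [← hj, hi, ← pow_mul, mul_comm]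
  have h5 := congrArg Units.val h4
  rw [Units.val_pow_eq_pow_val, Units.val_mk0] at h5
  exact h5

end cyc

/-- the sum over the class -/
theorem sum_class {K : Type} [Field K] [Fintype K] [DecidableEq K]
    (h3 : Fintype.card K % 3 = 1) {ω w₀ : K} (hω : ω ^ 3 = 1) (hω1 : ω ≠ 1) (hw : w₀ ≠ 0)
    (hw0 : w₀ ^ ((Fintype.card K - 1) / 3) = ω) (f : K → ℤ) :
    ∑ y ∈ univ.filter (fun y : K => y ≠ 0), f (w₀ * y ^ 3) =
      3 * ∑ w ∈ univ.filter (fun w : K => w ^ ((Fintype.card K - 1) / 3) = ω), f w := by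
  have hmap : ∀ y ∈ univ.filter (fun y : K => y ≠ 0),
      w₀ * y ^ 3 ∈ univ.filter (fun w : K => w ^ ((Fintype.card K - 1) / 3) = ω) := by
    intro y hy
    rw [mem_filter] at hy ⊢
    refine ⟨mem_univ _, ?_⟩
    rw [mul_pow, hw0, ← pow_mul, ← card_sub h3, FiniteField.pow_card_sub_one_eq_one y hy.2, mul_one]
  rw [← Finset.sum_fiberwise_of_maps_to hmap, Finset.mul_sum]
  refine Finset.sum_congr rfl fun w hw' => ?_
  rw [mem_filter] at hw'
  have hω0 : ω ≠ 0 := by
    rintro rfl
    norm_num at hω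
  have hwne : w ≠ 0 := by
    rintro rfl
    rw [zero_pow (N_pos h3).ne'] at hw'
    exact hω0 hw'.2.symm
  have hdiv : (w / w₀) ^ ((Fintype.card K - 1) / 3) = 1 := by
    rw [div_pow, hw'.2, hw0, div_self hω0]
  obtain ⟨y0, hy0, hy03⟩ := exists_cube h3 (div_ne_zero hwne hw) hdiv
  have hfib : (univ.filter (fun y : K => y ≠ 0)).filter (fun y => w₀ * y ^ 3 = w) =
      {y0, ω * y0, ω ^ 2 * y0} := by
    ext y
    simp only [mem_filter, mem_univ, true_and, mem_insert, mem_singleton]
    constructor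
    · rintro ⟨hy, he⟩
      have h1 : y ^ 3 = y0 ^ 3 := by
        rw [hy03, ← he]
        field_simp
      have h2 : (y / y0) ^ 3 = 1 := by
        rw [div_pow, h1, div_self (pow_ne_zero 3 hy0)]
      have hquad : ω ^ 2 + ω + 1 = 0 := by
        have : (ω - 1) * (ω ^ 2 + ω + 1) = 0 := by
          have : (ω - 1) * (ω ^ 2 + ω + 1) = ω ^ 3 - 1 := by ring
          rw [this, hω, sub_self]
        rcases mul_eq_zero.1 this with h | h
        · exact absurd (sub_eq_zero.1 h) hω1
        · exact h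
      have h3' : (y / y0 - 1) * (y / y0 - ω) * (y / y0 - ω ^ 2) = 0 := by
        have : (y / y0 - 1) * (y / y0 - ω) * (y / y0 - ω ^ 2) =
            (y / y0) ^ 3 - 1 - (ω ^ 2 + ω + 1) * ((y / y0) ^ 2 - ω * (y / y0)) -
              (ω ^ 3 - 1) := by ring
        rw [this, h2, hquad, hω]
        ring
      rcases mul_eq_zero.1 h3' with h | h
      · rcases mul_eq_zero.1 h with h | h
        · left
          rw [sub_eq_zero, div_eq_one_iff_eq hy0] at h
          exact h
        · right; left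
          rw [sub_eq_zero, div_eq_iff hy0] at h
          exact h
      · right; right
        rw [sub_eq_zero, div_eq_iff hy0] at h
        exact h
    · have hbase : w₀ * y0 ^ 3 = w := by
        rw [hy03]
        field_simp
      rintro (rfl | rfl | rfl)
      · exact ⟨hy0, hbase⟩
      · refine ⟨mul_ne_zero hω0 hy0, ?_⟩
        rw [mul_pow, hω, one_mul, hbase]
      · refine ⟨mul_ne_zero (pow_ne_zero 2 hω0) hy0, ?_⟩
        rw [mul_pow, ← pow_mul, mul_comm 2 3, pow_mul, hω, one_pow, one_mul, hbase]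
  have hne1 : y0 ≠ ω * y0 := by
    intro h
    have : (ω - 1) * y0 = 0 := by rw [sub_mul, one_mul, ← h, sub_self]
    rcases mul_eq_zero.1 this with h | h
    · exact hω1 (sub_eq_zero.1 h)
    · exact hy0 h
  have hω2 : ω ^ 2 ≠ 1 := by
    intro h
    apply hω1
    calc ω = ω ^ 3 := by rw [pow_succ, h, one_mul]
      _ = 1 := hω
  have hne2 : y0 ≠ ω ^ 2 * y0 := by
    intro h
    have : (ω ^ 2 - 1) * y0 = 0 := by rw [sub_mul, one_mul, ← h, sub_self]
    rcases mul_eq_zero.1 this with h | h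
    · exact hω2 (sub_eq_zero.1 h)
    · exact hy0 h
  have hne3 : ω * y0 ≠ ω ^ 2 * y0 := by
    intro h
    have : ω * ((ω - 1) * y0) = 0 := by
      have : ω * ((ω - 1) * y0) = ω ^ 2 * y0 - ω * y0 := by ring
      rw [this, h, sub_self]
    rcases mul_eq_zero.1 this with h | h
    · exact hω0 h
    · rcases mul_eq_zero.1 h with h | h
      · exact hω1 (sub_eq_zero.1 h)
      · exact hy0 h
  have hcard : ((univ.filter (fun y : K => y ≠ 0)).filter (fun y => w₀ * y ^ 3 = w)).card = 3 := by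
    rw [hfib, Finset.card_insert_of_notMem, Finset.card_insert_of_notMem, Finset.card_singleton]
    · rw [mem_singleton]; exact hne3
    · rw [mem_insert, mem_singleton]
      push Not
      exact ⟨hne1, hne2⟩
  rw [Finset.sum_congr rfl (g := fun _ => f w)]
  · rw [Finset.sum_const, hcard]
    simp
  · intro y hy
    rw [mem_filter] at hy
    rw [hy.2]

theorem sum_pow_le (q : ℕ) (hq : 5 ≤ q) (U : ℕ) : 4 * ∑ u ∈ Icc 1 U, q ^ u ≤ 5 * q ^ U := by
  induction U with
  | zero => simp
  | succ U ih =>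
    rw [Finset.sum_Icc_succ_top (by omega), mul_add]
    have h1 : 5 * q ^ U ≤ q ^ (U + 1) := by
      rw [pow_succ, mul_comm (q ^ U)]
      exact Nat.mul_le_mul_right _ hq
    omega

theorem natDegree_gg {K : Type} [Field K] (ω : K) (ε : Bool) : (gg ω ε).natDegree ≤ 2 := by
  unfold gg
  split_ifs <;> compute_degree

theorem eval_gg_zero {K : Type} [Field K] (ω : K) (ε : Bool) : (gg ω ε).eval 0 = 1 := by
  unfold gg
  split_ifs <;> simp

end CHS3

open CHS3 in
theorem stmt_CHS3 (hW : Stmt_WEIL) (hS : Stmt_SQF3) : Stmt_CHS3 := by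
  intro F K _ _ _ _ _ _ hq6 ω hω U hU S hSne hSU
  have hq1 : 1 < Fintype.card F := Fintype.one_lt_card
  have hq7 : 7 ≤ Fintype.card F := by omega
  have hcardK : Fintype.card K = Fintype.card F ^ Module.finrank F K :=
    Module.card_eq_pow_finrank
  have hK3 : Fintype.card K % 3 = 1 := by
    rw [hcardK, Nat.pow_mod]
    have : Fintype.card F % 3 = 1 := by omega
    simp [this]
  have hchar : ringChar K ≠ 2 := by
    intro h
    have h1 := FiniteField.even_card_of_char_two h
    rw [hcardK] at h1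
    have h2 : (Fintype.card F ^ Module.finrank F K) % 2 = 1 := by
      rw [Nat.pow_mod]
      have : Fintype.card F % 2 = 1 := by omega
      simp [this]
    omega
  have h3ne : (3 : K) ≠ 0 := by
    intro h
    have h1 : ((Fintype.card K : ℕ) : K) = 0 := FiniteField.cast_card_eq_zero K
    have h2 : Fintype.card K = 3 * (Fintype.card K / 3) + 1 := by omega
    rw [h2] at h1
    push_cast at h1
    rw [h, zero_mul, zero_add] at h1
    exact one_ne_zero h1
  have hω3 : ω ^ 3 = 1 := by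
    have : ω ^ 3 - 1 = (ω - 1) * (ω ^ 2 + ω + 1) := by ring
    rw [hω, mul_zero, sub_eq_zero] at this
    exact this
  have hω1 : ω ≠ 1 := by
    rintro rfl
    apply h3ne
    rw [← hω]
    ring
  obtain ⟨w₀, hw0, hw0v⟩ := exists_val hK3 hω3
  have hsum := sum_class hK3 hω3 hω1 hw0 hw0v
    (fun w => ∏ p ∈ S, quadraticChar K ((gg ω p.2).eval (Aw F w p.1)))
  have hev : ∀ y : K, ∏ p ∈ S, quadraticChar K ((gg ω p.2).eval (Aw F (w₀ * y ^ 3) p.1)) =
      quadraticChar K ((HH (Fintype.card F) ω w₀ S).eval y) := by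
    intro y
    rw [HH, eval_prod, map_prod]
    refine Finset.prod_congr rfl fun p hp => ?_
    rw [eval_comp, eval_mul, eval_C, eval_pow, eval_X, Aw, mul_pow, ← pow_mul]
    have h1 : 3 * ((Fintype.card F ^ p.1 - 1) / 3) = Fintype.card F ^ p.1 - 1 := by
      have h2 : Fintype.card F ^ p.1 % 3 = 1 := by
        rw [Nat.pow_mod]
        have : Fintype.card F % 3 = 1 := by omega
        simp [this]
      omega
    rw [h1]
  have h0 : (HH (Fintype.card F) ω w₀ S).eval 0 = 1 := by
    rw [HH, eval_prod]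
    refine Finset.prod_eq_one fun p hp => ?_
    rw [eval_comp, eval_mul, eval_C, eval_pow, eval_X, zero_pow, mul_zero, eval_gg_zero]
    have h1 := (hSU p hp).1
    have h2 : 1 < Fintype.card F ^ p.1 := Nat.one_lt_pow (by omega) hq1
    omega
  have htot : ∑ y : K, quadraticChar K ((HH (Fintype.card F) ω w₀ S).eval y) =
      3 * (∑ w ∈ univ.filter (fun w : K => w ^ ((Fintype.card K - 1) / 3) = ω),
        ∏ p ∈ S, quadraticChar K ((gg ω p.2).eval (Aw F w p.1))) + 1 := by
    rw [← hsum]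
    rw [← Finset.sum_filter_add_sum_filter_not univ (fun y : K => y ≠ 0)]
    congr 1
    · exact Finset.sum_congr rfl fun y _ => (hev y).symm
    · have : univ.filter (fun y : K => ¬ y ≠ 0) = {0} := by
        ext y
        simp
      rw [this, Finset.sum_singleton, h0]
      simp
  have hdeg : (HH (Fintype.card F) ω w₀ S).natDegree ≤ 5 * Fintype.card F ^ U := by
    have h1 : (HH (Fintype.card F) ω w₀ S).natDegree ≤
        ∑ p ∈ S, 2 * Fintype.card F ^ p.1 := by
      refine (natDegree_prod_le S _).trans (Finset.sum_le_sum fun p _ => ?_)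
      refine natDegree_comp_le.trans ?_
      refine Nat.mul_le_mul (natDegree_gg ω p.2) ?_
      refine (natDegree_C_mul_X_pow_le _ _).trans ?_
      exact Nat.sub_le _ _
    have h2 : S ⊆ (Icc 1 U) ×ˢ (univ : Finset Bool) := by
      intro p hp
      rw [mem_product, mem_Icc]
      exact ⟨hSU p hp, mem_univ _⟩
    have h3 : ∑ p ∈ S, 2 * Fintype.card F ^ p.1 ≤
        ∑ p ∈ (Icc 1 U) ×ˢ (univ : Finset Bool), 2 * Fintype.card F ^ p.1 :=
      Finset.sum_le_sum_of_subset h2
    have h4 : ∑ p ∈ (Icc 1 U) ×ˢ (univ : Finset Bool), 2 * Fintype.card F ^ p.1 =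
        4 * ∑ u ∈ Icc 1 U, Fintype.card F ^ u := by
      rw [Finset.sum_product, Finset.mul_sum]
      refine Finset.sum_congr rfl fun u _ => ?_
      rw [Fintype.sum_bool]
      ring
    have h5 := sum_pow_le (Fintype.card F) (by omega) U
    omega
  have hw := hW K hchar (HH (Fintype.card F) ω w₀ S) (5 * Fintype.card F ^ U)
    (by have : 0 < Fintype.card F ^ U := pow_pos (by omega) U
        omega) hdeg
    (by
      calc 100 * (5 * Fintype.card F ^ U) ^ 2 = 2500 * Fintype.card F ^ (2 * U) := by ring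
        _ ≤ Fintype.card K := hU)
    (hS F K hq6 ω w₀ hω hw0 S hSne fun p hp => (hSU p hp).1)
  rw [htot] at hw
  push_cast at hw ⊢
  set T : ℝ := ∑ w ∈ univ.filter (fun w : K => w ^ ((Fintype.card K - 1) / 3) = ω),
      ∏ p ∈ S, ((quadraticChar K ((gg ω p.2).eval (Aw F w p.1)) : ℤ) : ℝ) with hT
  have hA : (1 : ℝ) ≤ (Fintype.card F : ℝ) ^ U :=
    one_le_pow₀ (by exact_mod_cast (by omega : 1 ≤ Fintype.card F))
  have hB : (1 : ℝ) ≤ √(Fintype.card K) := by
    rw [Real.one_le_sqrt]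
    exact_mod_cast (Fintype.card_pos (α := K))
  have hAB : (1 : ℝ) ≤ (Fintype.card F : ℝ) ^ U * √(Fintype.card K) := by nlinarith
  have h1 := abs_le.1 hw
  rw [abs_le]
  constructor
  · nlinarith [h1.1, h1.2]
  · nlinarith [h1.1, h1.2]

end Pool.Agent.Work.ES
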