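import Pool.Agent.Work.MP_223b32_es.Interface
import Pool.Agent.Work.MP_223b32_tc_helper10.EP

/-! # Block BETA (helper4) -/

namespace Pool.Agent.Work.ES

open Finset Polynomial Module Pool.Agent.Work.MP_223b32_ag Pool.Agent.Work.TC
open Pool.Agent.Work.TL (AA Om)
open Pool.Agent.Work.TC.EP (mon_monic mon_natDegree mon_coeff mon_injective mon_surj)

namespace BETA

/-! ### congruences modulo two -/

/-- congruent modulo `2` -/
def Cg (z w : ℂ) : Prop := ∃ y : AA, z - w = 2 * (y : ℂ)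

theorem Cg.refl (z : ℂ) : Cg z z := ⟨0, by simp⟩

theorem Cg.symm {z w : ℂ} (h : Cg z w) : Cg w z := by
  obtain ⟨y, hy⟩ := h
  refine ⟨-y, ?_⟩
  push_cast
  rw [mul_neg, ← hy]
  ring

theorem Cg.trans {z w v : ℂ} (h : Cg z w) (h' : Cg w v) : Cg z v := by
  obtain ⟨y, hy⟩ := h
  obtain ⟨y', hy'⟩ := h'
  refine ⟨y + y', ?_⟩
  push_cast
  rw [mul_add, ← hy, ← hy']
  ring

theorem Cg.sum {ι : Type} (s : Finset ι) {f g : ι → ℂ} (h : ∀ i ∈ s, Cg (f i) (g i)) :
    Cg (∑ i ∈ s, f i) (∑ i ∈ s, g i) := by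
  classical
  induction s using Finset.induction_on with
  | empty => exact Cg.refl _
  | insert a s ha ih =>
    rw [Finset.sum_insert ha, Finset.sum_insert ha]
    obtain ⟨y, hy⟩ := h a (Finset.mem_insert_self a s)
    obtain ⟨y', hy'⟩ := ih fun i hi => h i (Finset.mem_insert_of_mem hi)
    refine ⟨y + y', ?_⟩
    push_cast
    rw [mul_add, ← hy, ← hy']
    ring

/-- signs do not matter -/
theorem Cg.sign {ε z : ℂ} (hε : ε = 1 ∨ ε = -1) (hz : ∃ y : AA, (y : ℂ) = z) : Cg (ε * z) z := by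
  obtain ⟨y, rfl⟩ := hz
  rcases hε with rfl | rfl
  · rw [one_mul]; exact Cg.refl _
  · refine ⟨-y, ?_⟩
    push_cast
    ring

theorem Cg.int {z w : ℂ} (h : Cg z w) (hw : ∃ y : AA, (y : ℂ) = w) : ∃ y : AA, (y : ℂ) = z := by
  obtain ⟨y, hy⟩ := h
  obtain ⟨x, rfl⟩ := hw
  refine ⟨2 * y + x, ?_⟩
  change 2 * (y : ℂ) + (x : ℂ) = z
  rw [← hy]
  ring

theorem two_Om : (2 : Om) = 0 := by
  have : CharP Om 2 := charP_of_injective_algebraMap (algebraMap (ZMod 2) Om).injective 2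
  exact CharTwo.two_eq_zero

theorem Cg.rho (ρ : AA →+* Om) {x y : AA} (h : Cg (x : ℂ) (y : ℂ)) : ρ x = ρ y := by
  obtain ⟨z, hz⟩ := h
  have h1 : x = y + 2 * z := by
    apply Subtype.ext
    change (x : ℂ) = (y : ℂ) + 2 * (z : ℂ)
    rw [← hz]
    ring
  rw [h1, map_add, map_mul, map_ofNat, two_Om, zero_mul, add_zero]

/-! ### the characters -/

section chars
variable {F : Type} [Field F] [Fintype F]

theorem tau_int {τ : MulChar F ℂ} (h3 : τ ^ 3 = 1) (u : F) : ∃ y : AA, (y : ℂ) = τ u := by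
  by_cases hu : u = 0
  · refine ⟨0, ?_⟩
    rw [hu, MulChar.map_zero]
    rfl
  · have h1 : (τ u) ^ 3 = 1 := by
      rw [← MulChar.pow_apply' τ (by norm_num : (3 : ℕ) ≠ 0), h3, MulChar.one_apply (isUnit_iff_ne_zero.2 hu)]
    have h2 : IsIntegral ℤ (τ u) := by
      refine IsIntegral.of_pow (n := 3) (by norm_num) ?_
      rw [h1]
      exact isIntegral_one
    exact ⟨⟨τ u, h2⟩, rfl⟩

theorem tau_pow {τ : MulChar F ℂ} (h3 : τ ^ 3 = 1) {u : F} (hu : u ≠ 0) : (τ u) ^ 3 = 1 := by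
  rw [← MulChar.pow_apply' τ (by norm_num : (3 : ℕ) ≠ 0), h3, MulChar.one_apply (isUnit_iff_ne_zero.2 hu)]

theorem tau_neg_one {τ : MulChar F ℂ} (h3 : τ ^ 3 = 1) : τ (-1) = 1 := by
  have h1 : (τ (-1)) ^ 2 = 1 := by
    rw [← map_pow]
    norm_num
  have h2 := tau_pow h3 (neg_ne_zero.2 (one_ne_zero (α := F)))
  calc τ (-1) = (τ (-1)) ^ 3 := by rw [pow_succ, h1, one_mul]
    _ = 1 := h2

theorem exists_tau {τ : MulChar F ℂ} (h1 : τ ≠ 1) : ∃ g : F, g ≠ 0 ∧ τ g ≠ 1 := by
  obtain ⟨g, hg⟩ := MulChar.ne_one_iff.1 h1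
  exact ⟨g, g.ne_zero, hg⟩

/-- the sum over all monic polynomials of positive degree vanishes -/
theorem sum_tau {τ : MulChar F ℂ} (h1 : τ ≠ 1) {m : ℕ} (hm : 1 ≤ m) :
    ∑ c : Fin m → F, τ ((mon m c).coeff 0) = 0 := by
  obtain ⟨g, hg0, hg⟩ := exists_tau h1
  have hc : ∀ c : Fin m → F, (mon m c).coeff 0 = c ⟨0, hm⟩ := fun c => mon_coeff m c ⟨0, hm⟩
  simp_rw [hc]
  have h2 : ∑ c : Fin m → F, τ (c ⟨0, hm⟩) = τ g * ∑ c : Fin m → F, τ (c ⟨0, hm⟩) := by
    rw [Finset.mul_sum]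
    let e : (Fin m → F) ≃ (Fin m → F) :=
      ⟨fun c i => g * c i, fun c i => g⁻¹ * c i, fun c => by
        funext i
        change g⁻¹ * (g * c i) = c i
        rw [inv_mul_cancel_left₀ hg0], fun c => by
        funext i
        change g * (g⁻¹ * c i) = c i
        rw [mul_inv_cancel_left₀ hg0]⟩
    rw [← Equiv.sum_comp e]
    refine Finset.sum_congr rfl fun c _ => ?_
    change τ (g * c ⟨0, hm⟩) = _
    rw [map_mul]
  have h3 : (1 - τ g) * ∑ c : Fin m → F, τ (c ⟨0, hm⟩) = 0 := by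
    rw [sub_mul, one_mul, ← h2, sub_self]
  rcases mul_eq_zero.1 h3 with h | h
  · exact absurd (sub_eq_zero.1 h).symm hg
  · exact h

theorem qchar_sign (E : Type) [Field E] [Fintype E] [DecidableEq E] {x : E} (hx : x ≠ 0) :
    ((quadraticChar E x : ℤ) : ℂ) = 1 ∨ ((quadraticChar E x : ℤ) : ℂ) = -1 := by
  rcases quadraticChar_dichotomy hx with h | h
  · left; rw [h]; norm_num
  · right; rw [h]; norm_num

variable [DecidableEq F] {K : Type} [Field K] [Fintype K] [DecidableEq K] [Algebra F K]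

theorem XX_cg {τ ψ : MulChar F ℂ} (hψ : ∀ u : F, u ≠ 0 → ∃ ε : ℂ, (ε = 1 ∨ ε = -1) ∧ ψ u = ε * τ u)
    (h3 : τ ^ 3 = 1) (a : K) (h : F[X]) (ha : aeval a h ≠ 0) :
    Cg (XX ψ a h) (τ (h.coeff 0)) := by
  change Cg ((quadraticChar K (aeval a h) : ℂ) * ψ (h.coeff 0)) _
  by_cases h0 : h.coeff 0 = 0
  · rw [h0, MulChar.map_zero, MulChar.map_zero, mul_zero]
    exact Cg.refl _
  · obtain ⟨ε, hε, he⟩ := hψ _ h0
    rw [he, ← mul_assoc]
    refine Cg.sign ?_ (tau_int h3 _)
    rcases qchar_sign K ha with h1 | h1 <;> rcases hε with h2 | h2 <;> rw [h1, h2] <;> norm_num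

theorem XX_zero (ψ : MulChar F ℂ) (a : K) (h : F[X]) (ha : aeval a h = 0) : XX ψ a h = 0 := by
  change (quadraticChar K (aeval a h) : ℂ) * ψ (h.coeff 0) = 0
  rw [ha, MulChar.map_zero]
  norm_num

theorem msum_low {τ ψ : MulChar F ℂ}
    (hψ : ∀ u : F, u ≠ 0 → ∃ ε : ℂ, (ε = 1 ∨ ε = -1) ∧ ψ u = ε * τ u)
    (h1 : τ ≠ 1) (h3 : τ ^ 3 = 1) (a : K) {m : ℕ} (hm : 1 ≤ m) (hmn : m < (minpoly F a).natDegree) :
    Cg (msumC (XX ψ a) m) 0 := by
  have h := Cg.sum (univ : Finset (Fin m → F)) (f := fun c => XX ψ a (mon m c))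
    (g := fun c => τ ((mon m c).coeff 0)) ?_
  · rw [sum_tau h1 hm] at h
    exact h
  · intro c _
    refine XX_cg hψ h3 a _ ?_
    intro h0
    have h2 := natDegree_le_of_dvd (minpoly.dvd F a h0) (mon_monic m _).ne_zero
    rw [mon_natDegree] at h2
    omega

theorem msum_zero (ψ : MulChar F ℂ) (a : K) : msumC (XX ψ a) 0 = 1 := by
  unfold msumC
  rw [Fintype.sum_unique]
  have : mon 0 (default : Fin 0 → F) = 1 := by
    unfold mon
    simp
  rw [this, map_one]

theorem mon_eq_minpoly (a : K) {m : ℕ} (hm : m = (minpoly F a).natDegree) :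
    ∃ c0 : Fin m → F, mon m c0 = minpoly F a ∧ ∀ c : Fin m → F, aeval a (mon m c) = 0 → c = c0 := by
  have ha : IsIntegral F a := IsIntegral.of_finite F a
  subst hm
  obtain ⟨c0, hc0⟩ := mon_surj (minpoly.monic ha)
  refine ⟨c0, hc0, fun c hc => ?_⟩
  apply mon_injective
  rw [hc0]
  refine (eq_of_monic_of_dvd_of_natDegree_le (minpoly.monic ha) (mon_monic _ c)
    (minpoly.dvd F a hc) ?_)
  rw [mon_natDegree]

theorem msum_top {τ ψ : MulChar F ℂ}
    (hψ : ∀ u : F, u ≠ 0 → ∃ ε : ℂ, (ε = 1 ∨ ε = -1) ∧ ψ u = ε * τ u)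
    (h1 : τ ≠ 1) (h3 : τ ^ 3 = 1) (a : K) {m : ℕ} (hm : 1 ≤ m) (hmn : m = (minpoly F a).natDegree) :
    Cg (msumC (XX ψ a) m) (τ ((minpoly F a).coeff 0)) := by
  classical
  obtain ⟨c0, hc0, hc⟩ := mon_eq_minpoly a hmn
  have h := Cg.sum (univ : Finset (Fin m → F)) (f := fun c => XX ψ a (mon m c))
    (g := fun c => if c = c0 then 0 else τ ((mon m c).coeff 0)) ?_
  · refine Cg.trans h ?_
    have h2 : ∑ c : Fin m → F, (if c = c0 then 0 else τ ((mon m c).coeff 0)) =
        - τ ((minpoly F a).coeff 0) := by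
      have h4 := sum_tau h1 hm
      rw [← Finset.add_sum_erase univ _ (Finset.mem_univ c0)] at h4 ⊢
      rw [if_pos rfl, zero_add]
      rw [Finset.sum_congr rfl (g := fun c => τ ((mon m c).coeff 0))]
      · rw [← hc0]
        rw [eq_neg_iff_add_eq_zero, add_comm]
        exact h4
      · intro c hc'
        rw [if_neg (Finset.ne_of_mem_erase hc')]
    rw [h2]
    obtain ⟨y, hy⟩ := tau_int h3 ((minpoly F a).coeff 0)
    refine ⟨-y, ?_⟩
    push_cast
    rw [hy]
    ring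
  · intro c _
    split_ifs with h0
    · rw [XX_zero ψ a _ (by rw [h0, hc0]; exact minpoly.aeval F a)]
      exact Cg.refl _
    · refine XX_cg hψ h3 a _ fun h5 => h0 (hc c h5)

theorem jj_cg {τ : MulChar F ℂ} (h1 : τ ≠ 1) (h3 : τ ^ 3 = 1) : Cg (jj τ) 1 := by
  have hmin : minpoly F (1 : F) = X - C 1 := minpoly.eq_X_sub_C' 1
  have hψ : ∀ u : F, u ≠ 0 → ∃ ε : ℂ, (ε = 1 ∨ ε = -1) ∧ τ u = ε * τ u :=
    fun u _ => ⟨1, Or.inl rfl, (one_mul _).symm⟩
  have h := msum_top (K := F) hψ h1 h3 (1 : F) (le_refl 1) (by rw [hmin, natDegree_X_sub_C])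
  have h2 : (minpoly F (1 : F)).coeff 0 = -1 := by
    rw [hmin]
    simp
  rw [h2, tau_neg_one h3] at h
  unfold jj
  have h4 : ∃ y : AA, (y : ℂ) = msumC (XX τ (1 : F)) 1 := h.int ⟨1, rfl⟩
  refine Cg.trans (Cg.sign ?_ h4) h
  rcases qchar_sign F (neg_ne_zero.2 (one_ne_zero (α := F))) with h5 | h5 <;> rw [h5] <;> norm_num

omit [DecidableEq F] in
theorem coeff_zero (a : K) (h : (minpoly F a).natDegree = finrank F K) :
    (minpoly F a).coeff 0 = (-1) ^ finrank F K * Algebra.norm F a := by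
  have ha : IsIntegral F a := IsIntegral.of_finite F a
  set f : K →ₗ[F] K := Algebra.lmul F K a with hf
  have h1 : aeval a f.charpoly = 0 := by
    have h2 : aeval f f.charpoly = 0 := LinearMap.aeval_self_charpoly f
    have h4 : aeval (Algebra.lmul F K a) f.charpoly = Algebra.lmul F K (aeval a f.charpoly) :=
      aeval_algHom_apply (Algebra.lmul F K) a f.charpoly
    have h5 : (Algebra.lmul F K (aeval a f.charpoly)) 1 = 0 := by
      rw [← h4]
      change (aeval f f.charpoly) 1 = 0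
      rw [h2, LinearMap.zero_apply]
    have h6 : (Algebra.lmul F K (aeval a f.charpoly)) 1 = aeval a f.charpoly * 1 := rfl
    rw [← mul_one (aeval a f.charpoly), ← h6, h5]
  have h2 : minpoly F a = f.charpoly :=
    (eq_of_monic_of_dvd_of_natDegree_le (minpoly.monic ha) (LinearMap.charpoly_monic f)
      (minpoly.dvd F a h1) (by rw [LinearMap.charpoly_natDegree, h])).symm
  have h3 : Algebra.norm F a = LinearMap.det f := rfl
  rw [h3, LinearMap.det_eq_sign_charpoly_coeff, h2, ← mul_assoc, ← mul_pow]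
  norm_num

theorem tau_eq_one {τ : MulChar F ℂ} (hq : Fintype.card F % 3 = 1) (h1 : τ ≠ 1) (h3 : τ ^ 3 = 1)
    {u : F} (hu : u ≠ 0) (h : τ u = 1) : u ^ ((Fintype.card F - 1) / 3) = 1 := by
  obtain ⟨g, hg⟩ := IsCyclic.exists_generator (α := Fˣ)
  have hgen : ∀ x : Fˣ, ∃ j : ℕ, g ^ j = x := by
    intro x
    have := hg x
    rw [mem_zpowers_iff_mem_range_orderOf] at this
    obtain ⟨j, _, hj⟩ := Finset.mem_image.1 this
    exact ⟨j, hj⟩
  obtain ⟨j, hj⟩ := hgen (Units.mk0 u hu)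
  have hju : (g : F) ^ j = u := by
    have := congrArg Units.val hj
    rw [Units.val_pow_eq_pow_val, Units.val_mk0] at this
    exact this
  have hg1 : τ (g : F) ≠ 1 := by
    intro h4
    apply h1
    rw [MulChar.eq_one_iff]
    intro x
    obtain ⟨i, hi⟩ := hgen x
    rw [← hi, Units.val_pow_eq_pow_val, map_pow, h4, one_pow]
  have hg3 : (τ (g : F)) ^ 3 = 1 := tau_pow h3 g.ne_zero
  have hord : orderOf (τ (g : F)) = 3 := orderOf_eq_prime hg3 hg1
  have hj1 : (τ (g : F)) ^ j = 1 := by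
    rw [← map_pow, hju, h]
  have hdvd : 3 ∣ j := by
    rw [← hord]
    exact orderOf_dvd_of_pow_eq_one hj1
  obtain ⟨i, rfl⟩ := hdvd
  obtain ⟨N, hN⟩ : ∃ N, N = (Fintype.card F - 1) / 3 := ⟨_, rfl⟩
  have hc : 3 * N = Fintype.card F - 1 := by omega
  rw [← hju, ← pow_mul, ← hN]
  have : 3 * i * N = (3 * N) * i := by ring
  rw [this, hc, pow_mul, FiniteField.pow_card_sub_one_eq_one _ g.ne_zero, one_pow]

end chars

end BETA

open BETA in
theorem stmt_BETA : Stmt_BETA := by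
  intro F K _ _ _ _ _ _ _ hq6 k hk hfin a ha hmin τ hτ1 hτ3 ρ
  have hψ : ∀ u : F, u ≠ 0 → ∃ ε : ℂ, (ε = 1 ∨ ε = -1) ∧ (qc F * τ) u = ε * τ u := by
    intro u hu
    exact ⟨((quadraticChar F u : ℤ) : ℂ), qchar_sign F hu, rfl⟩
  have hn : 1 ≤ 3 ^ k := Nat.one_le_pow _ _ (by norm_num)
  have htop := msum_top hψ hτ1 hτ3 a hn hmin.symm
  obtain ⟨T, hT⟩ := tau_int hτ3 ((minpoly F a).coeff 0)
  have ha0 : a ≠ 0 := ha.1
  have hc0 : (minpoly F a).coeff 0 ≠ 0 := minpoly.coeff_zero_ne_zero (IsIntegral.of_finite F a) ha0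
  have hT3 : T ^ 3 = 1 := by
    apply Subtype.ext
    change (T : ℂ) ^ 3 = 1
    rw [hT]
    exact tau_pow hτ3 hc0
  have hq3 : Fintype.card F % 3 = 1 := by omega
  have hT1 : (T : ℂ) ≠ 1 := by
    rw [hT, coeff_zero a (hmin.trans hfin.symm), map_mul, map_pow, tau_neg_one hτ3, one_pow,
      one_mul]
    intro h
    have hnorm : Algebra.norm F a ≠ 0 := by
      rw [Ne, Algebra.norm_eq_zero_iff]
      exact ha0
    have h1 := tau_eq_one hq3 hτ1 hτ3 hnorm h
    apply ha.2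
    have h2 : algebraMap F K (Algebra.norm F a) = a ^ ((Nat.card K - 1) / (Nat.card F - 1)) :=
      FiniteField.algebraMap_norm_eq_pow
    have h3 := congrArg (algebraMap F K) h1
    rw [map_pow, h2, map_one, ← pow_mul, Nat.card_eq_fintype_card, Nat.card_eq_fintype_card] at h3
    have hdvd : Fintype.card F - 1 ∣ Fintype.card K - 1 := by
      rw [Module.card_eq_pow_finrank (K := F) (V := K)]
      have := Nat.sub_dvd_pow_sub_pow (Fintype.card F) 1 (finrank F K)
      rwa [one_pow] at this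
    obtain ⟨M, hM⟩ := hdvd
    have hq1 : 1 < Fintype.card F := Fintype.one_lt_card
    have h4 : (Fintype.card K - 1) / (Fintype.card F - 1) = M := by
      rw [hM]
      exact Nat.mul_div_cancel_left _ (by omega)
    have h5 : (Fintype.card K - 1) / 3 = M * ((Fintype.card F - 1) / 3) := by
      obtain ⟨N, hN⟩ : ∃ N, N = (Fintype.card F - 1) / 3 := ⟨_, rfl⟩
      have hc : Fintype.card F - 1 = 3 * N := by omega
      rw [hM, ← hN, hc]
      have : 3 * N * M = 3 * (M * N) := by ring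
      rw [this, Nat.mul_div_cancel_left _ (by norm_num : 0 < 3)]
    rw [h5, ← h4]
    exact h3
  have hquad : ρ T ^ 2 + ρ T + 1 = 0 := by
    have h1 : T ^ 2 + T + 1 = 0 := by
      apply Subtype.ext
      change (T : ℂ) ^ 2 + (T : ℂ) + 1 = 0
      have h2 : ((T : ℂ) - 1) * ((T : ℂ) ^ 2 + (T : ℂ) + 1) = 0 := by
        have h3 : (T : ℂ) ^ 3 = 1 := by
          rw [hT]
          exact tau_pow hτ3 hc0
        have : ((T : ℂ) - 1) * ((T : ℂ) ^ 2 + (T : ℂ) + 1) = (T : ℂ) ^ 3 - 1 := by ring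
        rw [this, h3, sub_self]
      rcases mul_eq_zero.1 h2 with h | h
      · exact absurd (sub_eq_zero.1 h) hT1
      · exact h
    have h2 := congrArg ρ h1
    rw [map_add, map_add, map_pow, map_one, map_zero] at h2
    exact h2
  refine ⟨ρ T, ?_, ?_, ?_⟩
  · rw [← map_pow, hT3, map_one]
  · intro h
    rw [h] at hquad
    have h2 : (1 : Om) = 0 := by
      have : (1 : Om) ^ 2 + 1 + 1 = 2 * 1 + 1 := by ring
      rw [this, two_Om, zero_mul, zero_add] at hquad
      exact hquad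
    exact one_ne_zero h2
  · intro β hβ i x hx
    -- the coefficients are algebraic integers
    have hB : ∀ m : ℕ, m ≤ 3 ^ k → ∃ b : AA, (b : ℂ) = msumC (XX (qc F * τ) a) m ∧
        ρ b = if m = 0 then 1 else if m = 3 ^ k then ρ T else 0 := by
      intro m hm
      by_cases h0 : m = 0
      · subst h0
        refine ⟨1, ?_, ?_⟩
        · rw [msum_zero]; rfl
        · rw [if_pos rfl, map_one]
      · rw [if_neg h0]
        by_cases h1 : m = 3 ^ k
        · subst h1
          obtain ⟨b, hb⟩ := htop.int ⟨T, hT⟩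
          refine ⟨b, hb, ?_⟩
          rw [if_pos rfl]
          apply Cg.rho
          rw [hb, hT]
          exact htop
        · rw [if_neg h1]
          have hl := msum_low hψ hτ1 hτ3 a (Nat.one_le_iff_ne_zero.2 h0)
            (by rw [hmin]; omega)
          obtain ⟨b, hb⟩ := hl.int ⟨0, rfl⟩
          refine ⟨b, hb, ?_⟩
          rw [← map_zero ρ]
          apply Cg.rho
          rw [hb]
          exact hl
    choose! B hB1 hB2 using hB
    have hroot : ∑ m ∈ range (3 ^ k + 1), msumC (XX (qc F * τ) a) m * β i ^ (3 ^ k - m) = 0 := by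
      have h1 := congrArg (fun P : ℂ[X] => P.eval (β i)) hβ
      simp only [eval_prod, eval_finsetSum, eval_mul, eval_C, eval_pow, eval_X, eval_sub] at h1
      rw [← h1]
      exact Finset.prod_eq_zero (Finset.mem_univ i) (sub_self _)
    have hroot2 : ∑ m ∈ range (3 ^ k + 1), (B m : ℂ) * β i ^ (3 ^ k - m) = 0 := by
      rw [← hroot]
      refine Finset.sum_congr rfl fun m hm => ?_
      rw [hB1 m (by rw [mem_range] at hm; omega)]
    have hint : IsIntegral ℤ (β i) := by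
      have h1 : IsIntegral AA (β i) := by
        refine ⟨X ^ 3 ^ k + ∑ m ∈ range (3 ^ k), C (B (m + 1)) * X ^ (3 ^ k - (m + 1)), ?_, ?_⟩
        · refine monic_X_pow_add ?_
          refine (degree_sum_le _ _).trans_lt ?_
          rw [Finset.sup_lt_iff (by exact WithBot.bot_lt_coe _)]
          intro m hm
          refine (degree_C_mul_X_pow_le _ _).trans_lt ?_
          rw [mem_range] at hm
          exact_mod_cast (by omega : 3 ^ k - (m + 1) < 3 ^ k)
        · rw [eval₂_add, eval₂_pow, eval₂_X, eval₂_finsetSum]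
          simp only [eval₂_mul, eval₂_C, eval₂_pow, eval₂_X]
          rw [Finset.sum_range_succ'] at hroot2
          have h0 : (B 0 : ℂ) = 1 := by
            rw [hB1 0 (Nat.zero_le _), msum_zero]
          rw [h0, one_mul, Nat.sub_zero, add_comm] at hroot2
          exact hroot2
      exact isIntegral_trans (R := ℤ) (A := AA) (β i) h1
    set b : AA := ⟨β i, hint⟩ with hb
    have hAA : ∑ m ∈ range (3 ^ k + 1), B m * b ^ (3 ^ k - m) = 0 := by
      apply Subtype.ext
      push_cast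
      exact hroot2
    have hρ := congrArg ρ hAA
    rw [map_sum, map_zero, Finset.sum_range_succ, Finset.sum_eq_single 0] at hρ
    · rw [Nat.sub_zero, Nat.sub_self, pow_zero, mul_one, map_mul, hB2 0 (Nat.zero_le _), if_pos rfl,
        one_mul, map_pow, hB2 _ (le_refl _), if_neg (by omega), if_pos rfl] at hρ
      have hbn : ρ b ^ 3 ^ k = ρ T := by
        have h1 : ρ b ^ 3 ^ k = -ρ T := eq_neg_of_add_eq_zero_left hρ
        rw [h1, neg_eq_iff_add_eq_zero, ← two_mul, two_Om, zero_mul]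
      obtain ⟨J, hJ⟩ := (jj_cg hτ1 hτ3).int ⟨1, rfl⟩
      have hJ1 : ρ J = 1 := by
        rw [← map_one ρ]
        apply Cg.rho
        rw [hJ]
        exact jj_cg hτ1 hτ3
      have hxJ : x = J * b := by
        apply Subtype.ext
        change (x : ℂ) = (J : ℂ) * β i
        rw [hJ, hx]
      rw [hxJ, map_mul, hJ1, one_mul, hbn]
    · intro m hm hm0
      rw [mem_range] at hm
      rw [map_mul, hB2 m (by omega), if_neg hm0, if_neg (by omega), zero_mul]
    · intro h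
      exact absurd (mem_range.2 (by omega)) h

end Pool.Agent.Work.ES
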